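import Pool.Agent.Helper4.P11.StD
import Pool.Agent.Helper84.P11.D1

/-!
# Project P11, levels `11^n`, module LdV: leading forms of the second operator

Adapted from Helper85/T7/M_LdV.lean and Helper99/W5/M_Ld.lean.
-/

set_option autoImplicit false

namespace Pool.Agent.Helper37.P11

open Pool.Agent.Helper4.P11 Pool.Agent.Helper84.P11
open Pool.Agent.Helper2.P11 (Rel11)

section lists

variable {q q' : ℕ}

private theorem ld_sub_smul (a b : ZMod 11) (X : Module.End (ZMod 11) (Fn11 q q')) :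
    (a - b) • X = a • X - b • X := by
  refine LinearMap.ext fun F => ?_
  funext x y
  change (a - b) * X F x y = a * X F x y - b * X F x y
  ring

private theorem ld_sum_sub {ι : Type} (S : Finset ι) (a b : ι → ZMod 11)
    (X : ι → Module.End (ZMod 11) (Fn11 q q')) :
    ∑ t ∈ S, (a t - b t) • X t = ∑ t ∈ S, a t • X t - ∑ t ∈ S, b t • X t := by
  rw [← Finset.sum_sub_distrib]
  exact Finset.sum_congr rfl fun t _ => ld_sub_smul _ _ _

end lists

private theorem ld_gd_app {L L' : List Tm} (h : ∀ t ∈ L, Gd t) (h' : ∀ t ∈ L', Gd t) :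
    ∀ t ∈ L ++ L', Gd t := by
  intro t ht
  rcases List.mem_append.1 ht with h1 | h1
  · exact h t h1
  · exact h' t h1

private theorem ld_gd_scl {L : List Tm} (n : ℤ) (h : ∀ t ∈ L, Gd t) : ∀ t ∈ sclL n L, Gd t := by
  intro t ht
  unfold sclL at ht
  rw [List.mem_map] at ht
  obtain ⟨a, ha, rfl⟩ := ht
  exact h a ha

private theorem ld_gd_mulL {L L' : List Tm} (h : ∀ t ∈ L, Gd t) (h' : ∀ t ∈ L', Gd t) :
    ∀ t ∈ mulL L L', Gd t := ((opm 0 0).1 L L' h h').1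

private theorem lv_gd_id (i f : Fin 3) : ∀ t ∈ id3 i f, Gd t := by
  intro t ht
  unfold id3 at ht
  split_ifs at ht
  · rw [List.mem_singleton] at ht
    subst ht
    unfold Gd
    simp
  · simp at ht

private theorem lv_gd_mm {A B : Fin 3 → Fin 3 → List Tm} (hA : ∀ i f, ∀ t ∈ A i f, Gd t)
    (hB : ∀ i f, ∀ t ∈ B i f, Gd t) (i f : Fin 3) : ∀ t ∈ mm3 A B i f, Gd t :=
  ld_gd_app (ld_gd_app (ld_gd_mulL (hA i 0) (hB 0 f)) (ld_gd_mulL (hA i 1) (hB 1 f)))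
    (ld_gd_mulL (hA i 2) (hB 2 f))

/-- The rows of a word are good. -/
private theorem lv_gd_wL (h : ∀ l ∈ PrM, ∀ i f : Fin 3, ∀ t ∈ TM l i f, Gd t) :
    ∀ ls : List ℕ, (∀ l ∈ ls, l ∈ PrM) → ∀ i f : Fin 3, ∀ t ∈ wL ls i f, Gd t
  | [], _ => fun i f => lv_gd_id i f
  | [l], hl => fun i f => h l (hl l List.mem_cons_self) i f
  | l :: l' :: ls, hl => fun i f =>
    lv_gd_mm (h l (hl l List.mem_cons_self))
      (lv_gd_wL h (l' :: ls) fun x hx => hl x (List.mem_cons_of_mem _ hx)) i f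

/-- The rows of a combination are good. -/
private theorem lv_gd_cL (h : ∀ l ∈ PrM, ∀ i f : Fin 3, ∀ t ∈ TM l i f, Gd t)
    (W : List (ℤ × List ℕ)) (hW : ∀ t ∈ W, ∀ l ∈ t.2, l ∈ PrM) (i f : Fin 3) :
    ∀ t ∈ cL W i f, Gd t := by
  intro t ht
  unfold cL at ht
  rw [List.mem_flatMap] at ht
  obtain ⟨w, hw, hb⟩ := ht
  exact ld_gd_scl _ (lv_gd_wL h w.2 (hW w hw) i f) t hb

/-- The coefficients. -/
private def cv (i f : Fin 3) (w : Fin 10) (t : ℕ × ℕ × ℕ) : ℤ :=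
  if i = f ∧ w = 0 then (if t = (1, 0, 11) ∨ t = (11, 0, 1) then 1 else 0) else 0

private theorem cv1 {i f : Fin 3} (h : i = f) : cv i f 0 (1, 0, 11) = 1 := by
  subst h
  simp [cv]

private theorem cv5 {i f : Fin 3} (h : i = f) : cv i f 0 (11, 0, 1) = 1 := by
  subst h
  simp [cv]

private theorem cvn {i f : Fin 3} (h : i ≠ f) (w : Fin 10) (t : ℕ × ℕ × ℕ) : cv i f w t = 0 := by
  unfold cv
  rw [if_neg (fun h1 => h h1.1)]

private theorem cv0 (i f : Fin 3) (w : Fin 10) (t : ℕ × ℕ × ℕ)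
    (h : w ≠ 0 ∨ t ∉ ({(1, 0, 11), (11, 0, 1)} : Finset (ℕ × ℕ × ℕ))) :
    cv i f w t = 0 := by
  unfold cv
  by_cases h1 : i = f ∧ w = 0
  · rw [if_pos h1]
    rcases h with h | h
    · exact absurd h1.2 h
    · simp only [Finset.mem_insert, Finset.mem_singleton, not_or] at h
      rw [if_neg (fun h2 => h2.elim h.1 h.2)]
  · rw [if_neg h1]

section ops

variable {r s : ℕ}

/-- A multiple of the relation vanishes. -/
private theorem lv_mulrel (hR : TRll) (F : Fin 3 → Fn11 (11 ^ r) (11 ^ s)) (h : Rel11 F)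
    (U : List Tm) (hU : ∀ t ∈ U, Gd t) (hr : ∀ f, ∀ t ∈ relM f, Gd t) :
    ∑ f : Fin 3, opL (sclL (-1) (mulL U (relM f))) (F f) = 0 := by
  have h1 : ∀ f : Fin 3, opL (sclL (-1) (mulL U (relM f))) (F f) =
      ((-1 : ℤ) : ZMod 11) • (opL U) (opL (relM f) (F f)) := by
    intro f
    rw [(opm r s).2.1, ((opm r s).1 U (relM f) hU (hr f)).2]
    rfl
  rw [Finset.sum_congr rfl fun f _ => h1 f, ← Finset.smul_sum, ← map_sum, hR r s F h, map_zero,
    smul_zero]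

private theorem ld_lw_zero (k : ℤ) : Lw (0 : Module.End (ZMod 11) (Fn11 (11 ^ r) (11 ^ s))) k := by
  intro d F _
  rw [LinearMap.zero_apply]
  exact Submodule.zero_mem _

private theorem ld_lw_pow (O : Module.End (ZMod 11) (Fn11 (11 ^ r) (11 ^ s))) (k : ℕ)
    (h : Lw O k) (n : ℕ) : Lw (O ^ n) ((k * n : ℕ) : ℤ) := by
  obtain ⟨l1, l2, l3, l4, l5, l6, l7, l8, _⟩ := low0 r s
  induction n with
  | zero => simpa using l6
  | succ n ih =>
    rw [pow_succ]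
    have := l1 _ _ _ _ ih h
    have e : ((k * n : ℕ) : ℤ) + k = ((k * (n + 1) : ℕ) : ℤ) := by push_cast; ring
    rw [e] at this
    exact this

private theorem ld_lw_sum {ι : Type} (S : Finset ι)
    (O : ι → Module.End (ZMod 11) (Fn11 (11 ^ r) (11 ^ s))) (k : ℤ) (h : ∀ i ∈ S, Lw (O i) k) :
    Lw (∑ i ∈ S, O i) k := by
  classical
  obtain ⟨l1, l2, _⟩ := low0 r s
  induction S using Finset.induction_on with
  | empty => simpa using ld_lw_zero k
  | insert a S ha ih =>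
    rw [Finset.sum_insert ha]
    exact l2 _ _ _ (h a (Finset.mem_insert_self _ _)) (ih fun i hi => h i (Finset.mem_insert_of_mem hi))

/-- the monomials -/
private def ldMon (w : Fin 10) (t : ℕ × ℕ × ℕ) : Module.End (ZMod 11) (Fn11 (11 ^ r) (11 ^ s)) :=
  oW w * (oB - 1) ^ t.1 * (oD - 1) ^ t.2.1 * (oA - 1) ^ t.2.2

private theorem ld_lw_mon (w : Fin 10) (t : ℕ × ℕ × ℕ) :
    Lw (ldMon w t : Module.End (ZMod 11) (Fn11 (11 ^ r) (11 ^ s)))
      ((t.1 + 10 * t.2.1 + t.2.2 : ℕ) : ℤ) := by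
  obtain ⟨l1, l2, l3, l4, l5, l6, l7, l8, _⟩ := low0 r s
  obtain ⟨n1, _, _, _, _, n4, n5, n6, n7, n8⟩ := nfa r s
  have h0 := ld_lw_pow (oB - 1 : Module.End (ZMod 11) (Fn11 (11 ^ r) (11 ^ s))) 1
    (by exact_mod_cast n8) t.1
  have h1 := ld_lw_pow (oD - 1 : Module.End (ZMod 11) (Fn11 (11 ^ r) (11 ^ s))) 10
    (by exact_mod_cast n4) t.2.1
  have h2 := ld_lw_pow (oA - 1 : Module.End (ZMod 11) (Fn11 (11 ^ r) (11 ^ s))) 1
    (by exact_mod_cast n7) t.2.2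
  have h := l1 _ _ _ _ (l1 _ _ _ _ (l1 _ _ _ _ (n1 w) h0) h1) h2
  have e : (0 : ℤ) + ((1 * t.1 : ℕ) : ℤ) + ((10 * t.2.1 : ℕ) : ℤ) + ((1 * t.2.2 : ℕ) : ℤ)
      = ((t.1 + 10 * t.2.1 + t.2.2 : ℕ) : ℤ) := by push_cast; ring
  rw [e] at h
  exact h

/-- the expansion with prescribed coefficients -/
private theorem ld_key (L : List Tm)
    (hL : ∀ t ∈ L, Gd t) (c : Fin 10 → ℕ × ℕ × ℕ → ZMod 11)
    (hc : ∀ w, ∀ t ∈ M13, ((cS L w t.1 t.2.1 t.2.2 : ℤ) : ZMod 11) = c w t) :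
    Lw ((opL L : Module.End (ZMod 11) (Fn11 (11 ^ r) (11 ^ s))) -
      ∑ w, ∑ t ∈ M13, c w t • ldMon w t) 13 := by
  have h0 : Lw ((opL L : Module.End (ZMod 11) (Fn11 (11 ^ r) (11 ^ s))) - ∑ w, ∑ t ∈ M13,
      ((cS L w t.1 t.2.1 t.2.2 : ℤ) : ZMod 11) •
      (ldMon w t : Module.End (ZMod 11) (Fn11 (11 ^ r) (11 ^ s)))) 13 := by
    have h := exp11 r s L hL
    unfold ldMon
    convert h using 2
  have e : ∑ w, ∑ t ∈ M13, ((cS L w t.1 t.2.1 t.2.2 : ℤ) : ZMod 11) •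
      (ldMon w t : Module.End (ZMod 11) (Fn11 (11 ^ r) (11 ^ s))) =
      ∑ w, ∑ t ∈ M13, c w t • ldMon w t :=
    Finset.sum_congr rfl fun w _ => Finset.sum_congr rfl fun t ht => by rw [hc w t ht]
  rw [e] at h0
  exact h0

private theorem ld_cast {S C : ℤ} (h : (11 : ℤ) ∣ S - C) : (S : ZMod 11) = (C : ZMod 11) := by
  have h1 := (ZMod.intCast_zmod_eq_zero_iff_dvd (S - C) 11).2 (by exact_mod_cast h)
  push_cast at h1
  exact sub_eq_zero.1 h1

/-- Powers. -/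
private theorem ld_pow (O P : Module.End (ZMod 11) (Fn11 (11 ^ r) (11 ^ s))) (hO : Lw O 1)
    (hP : Lw P 1) (h : Lw (O - P) 3) (n : ℕ) : Lw (O ^ n - P ^ n) ((n : ℤ) + 2) := by
  obtain ⟨l1, l2, l3, l4, _⟩ := low0 r s
  induction n with
  | zero =>
    rw [pow_zero, pow_zero, sub_self]
    exact ld_lw_zero _
  | succ n ih =>
    have e : O ^ (n + 1) - P ^ (n + 1) = O ^ n * (O - P) + (O ^ n - P ^ n) * P := by
      rw [pow_succ, pow_succ, mul_sub, sub_mul]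
      abel
    rw [e]
    have a1 := l1 _ _ _ _ (ld_lw_pow O 1 (by exact_mod_cast hO) n) h
    have a2 := l1 _ _ _ _ ih hP
    have e1 : ((1 * n : ℕ) : ℤ) + 3 = ((n + 1 : ℕ) : ℤ) + 2 := by push_cast; ring
    have e2 : (n : ℤ) + 2 + 1 = ((n + 1 : ℕ) : ℤ) + 2 := by push_cast; ring
    rw [e1] at a1
    rw [e2] at a2
    exact l2 _ _ _ a1 a2

/-- The monomial oW 0 * (oB - 1)^i * (oA - 1)^j. -/
private theorem lv_lead (i j : ℕ) (d : ℤ)
    (F : Fn11 (11 ^ r) (11 ^ s)) (hF : F ∈ Wd11 d) :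
    ldMon 0 (i, 0, j) F - (dY ^ i * dX ^ j : Module.End (ZMod 11) (Fn11 (11 ^ r) (11 ^ s))) F ∈
      Wd11 (d - (((i + j : ℕ) : ℤ) + 1)) := by
  obtain ⟨l1, l2, l3, l4, l5, l6, l7, l8, _⟩ := low0 r s
  obtain ⟨n1, _, _, _, _, n4, n5, n6, n7, n8⟩ := nfa r s
  have n5' := l4 _ _ (3 : ℤ) (by norm_num) n5
  have n6' := l4 _ _ (3 : ℤ) (by norm_num) n6
  have hA := ld_lw_pow (oA - 1 : Module.End (ZMod 11) (Fn11 (11 ^ r) (11 ^ s))) 1
    (by exact_mod_cast n7) j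
  have hB := ld_lw_pow (oB - 1 : Module.End (ZMod 11) (Fn11 (11 ^ r) (11 ^ s))) 1
    (by exact_mod_cast n8) i
  have hX := ld_lw_pow (dX : Module.End (ZMod 11) (Fn11 (11 ^ r) (11 ^ s))) 1
    (by exact_mod_cast l7) j
  have pA := ld_pow _ _ n7 l7 n5' j
  have pB := ld_pow _ _ n8 l8 n6' i
  have q2 := l1 _ _ _ _ hB pA
  have q3 := l1 _ _ _ _ pB hX
  have e2 : ((1 * i : ℕ) : ℤ) + ((j : ℤ) + 2) = ((i + j : ℕ) : ℤ) + 2 := by push_cast; ring
  have e3 : (i : ℤ) + 2 + ((1 * j : ℕ) : ℤ) = ((i + j : ℕ) : ℤ) + 2 := by push_cast; ring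
  rw [e2] at q2
  rw [e3] at q3
  have q4 := l2 _ _ _ q2 q3
  have e4 : (oB - 1) ^ i * ((oA - 1) ^ j - dX ^ j) + ((oB - 1) ^ i - dY ^ i) * dX ^ j =
      ((oB - 1) ^ i * (oA - 1) ^ j - dY ^ i * dX ^ j :
        Module.End (ZMod 11) (Fn11 (11 ^ r) (11 ^ s))) := by
    rw [mul_sub, sub_mul]
    abel
  rw [e4] at q4
  have m2 := l4 _ _ (((i + j : ℕ) : ℤ) + 1) (by linarith) q4 d F hF
  have h1 : (oW 0 : Module.End (ZMod 11) (Fn11 (11 ^ r) (11 ^ s))) = 1 := by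
    refine LinearMap.ext fun G => ?_
    exact (trm (ZMod 11) r s G).2.1
  have e6 : ldMon 0 (i, 0, j) F - (dY ^ i * dX ^ j : Module.End (ZMod 11) (Fn11 (11 ^ r) (11 ^ s))) F =
      ((oB - 1) ^ i * (oA - 1) ^ j - dY ^ i * dX ^ j :
        Module.End (ZMod 11) (Fn11 (11 ^ r) (11 ^ s))) F := by
    rw [LinearMap.sub_apply]
    unfold ldMon
    simp only [pow_zero, mul_one, h1, one_mul]
  rw [e6]
  exact m2

/-- Sums over `w` and `M13` with one nonzero block. -/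
private theorem lv_sum (S : Finset (ℕ × ℕ × ℕ)) (hS : S ⊆ M13)
    (c : Fin 10 → ℕ × ℕ × ℕ → ZMod 11) (hc : ∀ w t, w ≠ 0 ∨ t ∉ S → c w t = 0) :
    ∑ w, ∑ t ∈ M13, c w t • (ldMon w t : Module.End (ZMod 11) (Fn11 (11 ^ r) (11 ^ s))) =
      ∑ t ∈ S, c 0 t • ldMon 0 t := by
  rw [Finset.sum_eq_single (0 : Fin 10)]
  · refine (Finset.sum_subset hS fun t _ hn => ?_).symm
    rw [hc 0 t (Or.inr hn), zero_smul]
  · intro w _ hw
    refine Finset.sum_eq_zero fun t _ => ?_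
    rw [hc w t (Or.inl hw), zero_smul]
  · intro h
    exact absurd (Finset.mem_univ _) h

private theorem lv_Lo : (LoM : Module.End (ZMod 11) (Fn11 (11 ^ r) (11 ^ s))) =
    dY ^ 1 * dX ^ 11 + dY ^ 11 * dX ^ 1 := by
  obtain ⟨l1, l2, l3, l4, l5, l6, l7, l8, hc, _⟩ := low0 r s
  have h : Commute (dX : Module.End (ZMod 11) (Fn11 (11 ^ r) (11 ^ s))) dY := hc
  unfold LoM
  rw [pow_one, pow_one, (h.pow_left 11).eq, (h.pow_right 11).eq]

end ops

/-- Module LdV. -/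
theorem hLdV (hr : TRll) (hg : TCeG) (hc : TCeV) : TLdV := by
  intro r s d F hR hF i
  have ar : ∀ f, ∀ t ∈ relM f, Gd t := fun f => (hg.2.1 f).1
  have av : ∀ i, ∀ t ∈ mVM i, Gd t := fun i => (hg.2.1 i).2.2
  have hV : ∀ i f, ∀ t ∈ cL VW i f, Gd t := fun i f =>
    lv_gd_cL hg.1 VW (by decide) i f
  have hB : ∀ i f, ∀ t ∈ BVM i f, Gd t := fun i f =>
    ld_gd_app (hV i f) (ld_gd_scl _ (ld_gd_mulL (av i) (ar f)))
  -- modulo the relation
  have eV : ∑ f : Fin 3, opL (cL VW i f) (F f) = ∑ f : Fin 3, opL (BVM i f) (F f) := by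
    have h0 := lv_mulrel hr F hR (mVM i) (av i) ar
    have e : ∀ f : Fin 3, opL (BVM i f) (F f) = opL (cL VW i f) (F f) +
        opL (sclL (-1) (mulL (mVM i) (relM f))) (F f) := by
      intro f
      unfold BVM
      rw [(opm r s).2.2]
      rfl
    rw [Finset.sum_congr rfl fun f _ => e f, Finset.sum_add_distrib, h0, add_zero]
  have key : ∀ f : Fin 3, opL (BVM i f) (F f) - (if i = f then LoM (F f) else 0) ∈
      Wd11 (d - 13) := by
    intro f
    have k := ld_key (r := r) (s := s) (BVM i f) (hB i f)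
      (fun w t => ((cv i f w t : ℤ) : ZMod 11)) (fun w t ht => ld_cast (hc i f w t ht))
    by_cases hif : i = f
    · rw [if_pos hif]
      rw [lv_sum {(1, 0, 11), (11, 0, 1)} (by decide) _ (fun w t ht => by
          rw [cv0 i f w t ht, Int.cast_zero]),
          Finset.sum_insert (by decide), Finset.sum_singleton, cv1 hif, cv5 hif] at k
      have h1 := k d (F f) (hF f)
      have a1 := lv_lead 1 11 d (F f) (hF f)
      have a5 := lv_lead 11 1 d (F f) (hF f)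
      have e1 : d - (((1 + 11 : ℕ) : ℤ) + 1) = d - 13 := by norm_num
      have e3 : d - (((11 + 1 : ℕ) : ℤ) + 1) = d - 13 := by norm_num
      rw [e1] at a1
      rw [e3] at a5
      have e : opL (BVM i f) (F f) - LoM (F f) =
          (opL (BVM i f) - (((1 : ℤ) : ZMod 11) • ldMon 0 (1, 0, 11) +
            ((1 : ℤ) : ZMod 11) • ldMon 0 (11, 0, 1)) :
            Module.End (ZMod 11) (Fn11 (11 ^ r) (11 ^ s))) (F f) +
          ((ldMon 0 (1, 0, 11) (F f) -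
            (dY ^ 1 * dX ^ 11 : Module.End (ZMod 11) (Fn11 (11 ^ r) (11 ^ s))) (F f)) +
          (ldMon 0 (11, 0, 1) (F f) -
            (dY ^ 11 * dX ^ 1 : Module.End (ZMod 11) (Fn11 (11 ^ r) (11 ^ s))) (F f))) := by
        rw [lv_Lo]
        simp only [LinearMap.sub_apply, LinearMap.add_apply, LinearMap.smul_apply]
        push_cast
        rw [one_smul, one_smul]
        abel
      rw [e]
      exact Submodule.add_mem _ h1 (Submodule.add_mem _ a1 a5)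
    · rw [if_neg hif, sub_zero]
      simp only [cvn hif, Int.cast_zero, zero_smul, Finset.sum_const_zero, sub_zero] at k
      exact k d (F f) (hF f)
  have e : ∑ f : Fin 3, opL (cL VW i f) (F f) - LoM (F i) =
      ∑ f : Fin 3, (opL (BVM i f) (F f) - (if i = f then LoM (F f) else 0)) := by
    rw [Finset.sum_sub_distrib, eV, Finset.sum_ite_eq, if_pos (Finset.mem_univ _)]
  rw [e]
  exact Submodule.sum_mem _ fun f _ => key f

end Pool.Agent.Helper37.P11
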